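import Pool.Agent.Helper53.PT.GoalsB

set_option autoImplicit false

namespace Pool.Agent.Helper8.PT

open Pool.Agent.Helper53.PT MeasureTheory Set Filter Topology

theorem prod_exp_bound (θ : ℝ) (n : ℕ) (t : Fin n → ℝ) (σ X0 X : ℝ) (ht : Sx t)
    (h : ∀ l, |f0 θ (t l * X)| ≤ Real.exp (-(σ * (t l * X0)))) :
    |∏ l, f0 θ (t l * X)| ≤ Real.exp (-(σ * X0)) := by
  rw [Finset.abs_prod]
  refine (Finset.prod_le_prod (fun l _ => abs_nonneg _) (fun l _ => h l)).trans ?_
  rw [← Real.exp_sum]
  apply le_of_eq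
  congr 1
  rw [Finset.sum_neg_distrib, ← Finset.mul_sum, ← Finset.sum_mul, ht.2, one_mul]

theorem h_mono (g L x y : ℝ) (hg : 0 ≤ g) (hL : g ≤ L) (hy : 64 ≤ y) (hyx : y ≤ x) :
    y * (L + g * Real.log (x / 64)) ≤ x * (L + g * Real.log (y / 64)) := by
  have hy0 : 0 < y := by linarith
  have hx0 : 0 < x := by linarith
  have h1 : Real.log (x / 64) = Real.log (y / 64) + Real.log (x / y) := by
    rw [← Real.log_mul (by positivity) (by positivity)]
    congr 1
    field_simp
  have h2 : Real.log (x / y) ≤ x / y - 1 := Real.log_le_sub_one_of_pos (by positivity)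
  have h3 : 0 ≤ Real.log (y / 64) := Real.log_nonneg (by linarith)
  have h4 : y * Real.log (x / y) ≤ x - y := by
    have := mul_le_mul_of_nonneg_left h2 hy0.le
    have h5 : y * (x / y - 1) = x - y := by field_simp
    linarith
  have h6 : g * (y * Real.log (x / y)) ≤ g * (x - y) := mul_le_mul_of_nonneg_left h4 hg
  have h7 : g * (x - y) ≤ (x - y) * (L + g * Real.log (y / 64)) := by
    rw [mul_comm]
    apply mul_le_mul_of_nonneg_left _ (by linarith)
    nlinarith
  rw [h1]
  nlinarith

theorem gSIG : GSIG := by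
  intro θ
  refine ⟨?_, ?_, ?_⟩
  · intro n t σ Y X ht hX h1 h2
    apply prod_exp_bound θ n t σ X X ht
    intro l
    exact h1 _ (mul_nonneg (ht.1 l) hX) (h2 l)
  · intro n t σ Y X0 X ht hσ hX0 hX h1 h2 h3
    apply prod_exp_bound θ n t σ X0 X ht
    intro l
    have h4 : t l * X0 ≤ t l * X := mul_le_mul_of_nonneg_left hX (ht.1 l)
    rcases le_total (t l * X) Y with h | h
    · refine (h1 _ (mul_nonneg (ht.1 l) (hX0.trans hX)) h).trans ?_
      apply Real.exp_le_exp.mpr
      have := mul_le_mul_of_nonneg_left h4 hσ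
      linarith
    · refine (h2 _ h).trans ?_
      apply Real.exp_le_exp.mpr
      have := mul_le_mul_of_nonneg_left (h3 l) hσ
      linarith
  · intro g c0 c1 c2 hFP hc0 hg h1 x hx y hy hyx
    have hg0 : 0 ≤ g := by linarith [hFP.g0]
    have hx0 : 0 < x := by linarith
    have hlog : ∀ w : ℝ, 0 < w → Real.log (c0 * (64 / w) ^ g) =
        -(-Real.log c0 + g * Real.log (w / 64)) := by
      intro w hw
      rw [Real.log_mul hc0.ne' (Real.rpow_pos_of_pos (by positivity) _).ne',
        Real.log_rpow (by positivity), Real.log_div (by norm_num) hw.ne',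
        Real.log_div hw.ne' (by norm_num)]
      ring
    rcases le_total 64 y with h | h
    · have hy0 : 0 < y := by linarith
      refine (hFP.p0 y h).trans ?_
      have hpos : 0 < c0 * (64 / y) ^ g := mul_pos hc0 (Real.rpow_pos_of_pos (by positivity) _)
      rw [← Real.exp_log hpos]
      apply Real.exp_le_exp.mpr
      rw [hlog y hy0, hlog x hx0]
      have h2 := h_mono g (-Real.log c0) x y hg0 hg h hyx
      rw [div_mul_eq_mul_div, le_div_iff₀ hx0]
      linarith
    · refine (h1 y hy h).trans ?_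
      apply Real.exp_le_exp.mpr
      apply mul_le_mul_of_nonneg_right _ hy
      rw [hlog x hx0]
      have h2 := h_mono g (-Real.log c0) x 64 hg0 hg le_rfl hx
      rw [div_self (by norm_num), Real.log_one] at h2
      rw [div_le_div_iff₀ (by norm_num) hx0]
      linarith

end Pool.Agent.Helper8.PT
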