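import Pool.Agent.Helper53.PT.GoalsC
import Pool.Agent.Helper53.PT.B

namespace Pool.Agent.Helper8.PT

open Pool.Agent.Helper53.PT

namespace CHFaux

theorem mx_eq (a b : ℕ) : N.mx a b = max a b := by
  unfold N.mx
  by_cases h : a ≤ b
  · rw [max_eq_right h, Nat.ble_eq_true_of_le h]; rfl
  · have h' : Nat.ble a b = false := by
      rw [Bool.eq_false_iff]; intro hc; exact h (Nat.le_of_ble_eq_true hc)
    rw [max_eq_left (by omega), h']; rfl

theorem mn_eq (a b : ℕ) : N.mn a b = min a b := by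
  unfold N.mn
  by_cases h : a ≤ b
  · rw [min_eq_left h, Nat.ble_eq_true_of_le h]; rfl
  · have h' : Nat.ble a b = false := by
      rw [Bool.eq_false_iff]; intro hc; exact h (Nat.le_of_ble_eq_true hc)
    rw [min_eq_right (by omega), h']; rfl

theorem vR_nonneg (v : ℕ) : 0 ≤ vR v := by unfold vR; positivity

theorem vR_mono {a b : ℕ} (h : a ≤ b) : vR a ≤ vR b := by
  unfold vR
  have : (a : ℝ) ≤ b := by exact_mod_cast h
  gcongr

theorem vR_add (a b : ℕ) : vR (a + b) = vR a + vR b := by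
  unfold vR; push_cast; ring

theorem vR_max (a b : ℕ) : vR (max a b) = max (vR a) (vR b) := by
  rcases le_total a b with h | h
  · rw [max_eq_right h, max_eq_right (vR_mono h)]
  · rw [max_eq_left h, max_eq_left (vR_mono h)]

theorem vR_min (a b : ℕ) : vR (min a b) = min (vR a) (vR b) := by
  rcases le_total a b with h | h
  · rw [min_eq_left h, min_eq_left (vR_mono h)]
  · rw [min_eq_right h, min_eq_right (vR_mono h)]

theorem vR_one : vR 1099511627776 = 1 := by unfold vR; norm_num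

/-- truncated subtraction -/
theorem vR_sub (a b : ℕ) : vR a - vR b ≤ vR (a - b) := by
  have h : a ≤ (a - b) + b := by omega
  have := vR_mono h
  rw [vR_add] at this
  linarith

theorem div_lt (a b : ℕ) : (a : ℝ) / b < (a / b : ℕ) + 1 := by
  have h := Nat.lt_floor_add_one ((a : ℝ) / b)
  rw [Nat.floor_div_eq_div] at h
  exact h

/-- the width of the cell -/
noncomputable def hh (k : ℕ) : ℝ := 2 ^ N.shf k / 2 ^ 26

theorem hh_pos (k : ℕ) : 0 < hh k := by unfold hh; positivity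

theorem pow_e {s m : ℕ} (h : s ≤ m) : (2 : ℝ) ^ s / 2 ^ m = 1 / 2 ^ (m - s) := by
  have : (2 : ℝ) ^ m = 2 ^ (m - s) * 2 ^ s := by rw [← pow_add]; congr 1; omega
  rw [this]
  have h1 : (2 : ℝ) ^ s ≠ 0 := by positivity
  have h2 : (2 : ℝ) ^ (m - s) ≠ 0 := by positivity
  field_simp

theorem hh_sq16 (k : ℕ) (h : N.shf k ≤ 24) : hh k ^ 2 / 16 = 1 / 2 ^ (56 - 2 * N.shf k) := by
  have h1 : 2 * N.shf k ≤ 56 := by omega
  rw [← pow_e h1]
  unfold hh
  rw [div_pow, ← pow_mul, mul_comm (N.shf k) 2]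
  norm_num
  ring

theorem hh_sq8 (k : ℕ) (h : N.shf k ≤ 24) : hh k ^ 2 / 8 = 1 / 2 ^ (55 - 2 * N.shf k) := by
  have h1 : 2 * N.shf k ≤ 55 := by omega
  rw [← pow_e h1]
  unfold hh
  rw [div_pow, ← pow_mul, mul_comm (N.shf k) 2]
  norm_num
  ring

theorem hh_2 (k : ℕ) (h : N.shf k ≤ 24) : hh k / 2 = 1 / 2 ^ (27 - N.shf k) := by
  have h1 : N.shf k ≤ 27 := by omega
  rw [← pow_e h1]
  unfold hh
  norm_num
  ring

/-- division by a power of two, rounded up -/
theorem shr_le (a e : ℕ) : 1 / 2 ^ e * vR a ≤ vR (a / 2 ^ e + 1) := by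
  have h := div_lt a (2 ^ e)
  push_cast at h
  unfold vR
  push_cast
  rw [← mul_div_assoc]
  apply div_le_div_of_nonneg_right _ (by positivity)
  have : 1 / 2 ^ e * (a : ℝ) = (a : ℝ) / 2 ^ e := by ring
  rw [this]
  exact h.le

theorem cpF_eq (st s : ℕ) : N.cpF st s = st / 2 ^ (56 - 2 * s) + 1 := by
  unfold N.cpF
  rw [← Nat.shiftRight_eq_div_pow]
  rfl

theorem csF_eq (m st s : ℕ) :
    N.csF m st s = min (m / 2 ^ (55 - 2 * s) / 60) (st / 2 ^ (27 - s)) + 1 := by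
  unfold N.csF
  rw [mn_eq, ← Nat.shiftRight_eq_div_pow, ← Nat.shiftRight_eq_div_pow]
  rfl

theorem cp_le (k st : ℕ) (h : N.shf k ≤ 24) : hh k ^ 2 / 16 * vR st ≤ vR (N.cpF st (N.shf k)) := by
  rw [hh_sq16 k h, cpF_eq]
  exact shr_le _ _

theorem cs_le (k m st : ℕ) (h : N.shf k ≤ 24) :
    min (hh k ^ 2 / 8 * (vR m / 60)) (hh k / 2 * vR st) ≤ vR (N.csF m st (N.shf k)) := by
  rw [hh_sq8 k h, hh_2 k h, csF_eq, vR_add, vR_min]
  have h1 : 1 / 2 ^ (55 - 2 * N.shf k) * (vR m / 60) ≤ vR (m / 2 ^ (55 - 2 * N.shf k) / 60) + vR 1 := by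
    rw [Nat.div_div_eq_div_mul, ← vR_add]
    have h2 := div_lt m (2 ^ (55 - 2 * N.shf k) * 60)
    unfold vR
    push_cast at h2 ⊢
    have e1 : 1 / 2 ^ (55 - 2 * N.shf k) * ((m : ℝ) / 2 ^ 40 / 60)
        = (m : ℝ) / (2 ^ (55 - 2 * N.shf k) * 60) / 2 ^ 40 := by
      field_simp
    rw [e1]
    apply div_le_div_of_nonneg_right h2.le (by positivity)
  have h3 : 1 / 2 ^ (27 - N.shf k) * vR st ≤ vR (st / 2 ^ (27 - N.shf k)) + vR 1 := by
    rw [← vR_add]; exact shr_le _ _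
  rw [← min_add_add_right]
  exact min_le_min h1 h3

theorem am_eq (l u : ℕ) : N.am l u = max (1099511627776 - l) (u - 1099511627776) := by
  unfold N.am; rw [mx_eq]; rfl

/-- offset values -/
theorem am_le {l u : ℕ} {x : ℝ} (h1 : vR l - 1 ≤ x) (h2 : x ≤ vR u - 1) : |x| ≤ vR (N.am l u) := by
  rw [am_eq, vR_max, abs_le]
  have h3 := vR_sub 1099511627776 l
  have h4 := vR_sub u 1099511627776
  rw [vR_one] at h3 h4
  have h5 := le_max_left (vR (1099511627776 - l)) (vR (u - 1099511627776))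
  have h6 := le_max_right (vR (1099511627776 - l)) (vR (u - 1099511627776))
  constructor <;> linarith

theorem u0F_eq (B : N.Base) (k : ℕ) : N.u0F B k = min 1099511627776
    (max (N.am (N.fld (N.tPL B) k) (N.fld (N.tPU B) k))
      (N.am (N.fld (N.tPL B) (k + 1)) (N.fld (N.tPU B) (k + 1))) +
      N.cpF (N.fld (N.tST B) k) (N.shf k)) := by
  unfold N.u0F; rw [mn_eq, mx_eq]; rfl

theorem u1F_eq (B : N.Base) (k : ℕ) : N.u1F B k = min 1099511627776
    (max (N.am (N.fld (N.tSL B) k) (N.fld (N.tSU B) k))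
      (N.am (N.fld (N.tSL B) (k + 1)) (N.fld (N.tSU B) (k + 1))) +
      N.csF B.m3R (N.fld (N.tST B) k) (N.shf k)) := by
  unfold N.u1F; rw [mn_eq, mx_eq]; rfl

theorem p1F_eq (B : N.Base) (k : ℕ) : N.p1F B k = min 1099511627776
    (max (N.fld (N.tSU B) k) (N.fld (N.tSU B) (k + 1)) +
      N.csF B.m3R (N.fld (N.tST B) k) (N.shf k) - 1099511627776) := by
  unfold N.p1F; rw [mn_eq, mx_eq]; rfl

theorem conv_abs {a b M l : ℝ} (h0 : 0 ≤ l) (h1 : l ≤ 1) (ha : |a| ≤ M) (hb : |b| ≤ M) :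
    |(1 - l) * a + l * b| ≤ M := by
  rw [abs_le] at ha hb ⊢
  constructor
  · nlinarith [mul_nonneg (sub_nonneg.2 h1) (by linarith [ha.1] : 0 ≤ a + M),
      mul_nonneg h0 (by linarith [hb.1] : 0 ≤ b + M)]
  · nlinarith [mul_nonneg (sub_nonneg.2 h1) (by linarith [ha.2] : 0 ≤ M - a),
      mul_nonneg h0 (by linarith [hb.2] : 0 ≤ M - b)]

theorem conv_le {a b M l : ℝ} (h0 : 0 ≤ l) (h1 : l ≤ 1) (ha : a ≤ M) (hb : b ≤ M) :
    (1 - l) * a + l * b ≤ M := by
  nlinarith [mul_nonneg (sub_nonneg.2 h1) (by linarith : 0 ≤ M - a),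
      mul_nonneg h0 (by linarith : 0 ≤ M - b)]

theorem wLo_eq (hF : GFLD) (B : N.Base) (k : ℕ) : N.wLo B k = min 17592186044415
    ((1099511627776 + ((max (N.fld (N.tSL B) k - 1099511627776) (1099511627776 - N.fld (N.tSU B) k) *
        max (N.fld (N.tSL B) k - 1099511627776) (1099511627776 - N.fld (N.tSU B) k)) / 2 +
      ((N.fld (N.tPL B) k - 1099511627776) * (N.fld (N.tTL B) k - 1099511627776) +
        (1099511627776 - N.fld (N.tPU B) k) * (1099511627776 - N.fld (N.tTU B) k))) / 2 ^ 40) -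
     (((N.fld (N.tPU B) k - 1099511627776) * (1099511627776 - N.fld (N.tTL B) k) +
        (1099511627776 - N.fld (N.tPL B) k) * (N.fld (N.tTU B) k - 1099511627776)) / 2 ^ 40 + 1)) := by
  have hfrc := hF.2.2.2.2.2.2
  unfold N.wLo
  rw [hfrc, hfrc, hfrc, hfrc, hfrc, mn_eq, mx_eq]
  rw [← Nat.shiftRight_eq_div_pow, ← Nat.shiftRight_eq_div_pow]
  have e : ∀ m : ℕ, m / 2 = m >>> 1 := fun m => by rw [Nat.shiftRight_eq_div_pow]
  rw [e]
  rfl

theorem cwF_eq (hF : GFLD) (B : N.Base) (k : ℕ) : N.cwF B k =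
    (N.fld (N.tST B) k * N.fld (N.tST B) k) / 2 ^ 41 + (N.u0F B k * B.m4R) / 2 ^ 40 / 840 + 2 := by
  have hfrc := hF.2.2.2.2.2.2
  unfold N.cwF
  rw [hfrc, ← Nat.shiftRight_eq_div_pow, ← Nat.shiftRight_eq_div_pow]
  rfl

theorem wSl_eq (B : N.Base) (k : ℕ) : N.wSl B k = N.cwF B k / 2 ^ (55 - 2 * N.shf k) + 1 := by
  unfold N.wSl
  rw [← Nat.shiftRight_eq_div_pow]
  rfl

/-- the weight of the parts -/
theorem parts {a b c d : ℕ} {x y : ℝ} (ha : vR a - 1 ≤ x) (hb : x ≤ vR b - 1) (hc : vR c - 1 ≤ y)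
    (hd : y ≤ vR d - 1) :
    vR (a - 1099511627776) * vR (c - 1099511627776) + vR (1099511627776 - b) * vR (1099511627776 - d) -
      (vR (b - 1099511627776) * vR (1099511627776 - c) +
        vR (1099511627776 - a) * vR (d - 1099511627776)) ≤ x * y := by
  -- positive and negative parts
  have hP : ∀ {u v : ℕ} {z : ℝ}, vR u - 1 ≤ z → z ≤ vR v - 1 →
      ∃ p q : ℝ, z = p - q ∧ 0 ≤ p ∧ 0 ≤ q ∧ vR (u - 1099511627776) ≤ p ∧ p ≤ vR (v - 1099511627776) ∧
        vR (1099511627776 - v) ≤ q ∧ q ≤ vR (1099511627776 - u) := by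
    intro u v z hu hv
    refine ⟨max z 0, max (-z) 0, ?_, le_max_right _ _, le_max_right _ _, ?_, ?_, ?_, ?_⟩
    · rcases le_total z 0 with h | h
      · rw [max_eq_right h, max_eq_left (by linarith)]; ring
      · rw [max_eq_left h, max_eq_right (by linarith)]; ring
    · rcases le_total u 1099511627776 with h | h
      · rw [Nat.sub_eq_zero_of_le h]
        have : vR 0 = 0 := by unfold vR; norm_num
        rw [this]; exact le_max_right _ _
      · have e : vR (u - 1099511627776) = vR u - 1 := by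
          have := vR_add (u - 1099511627776) 1099511627776
          rw [Nat.sub_add_cancel h, vR_one] at this
          linarith
        rw [e]; exact hu.trans (le_max_left _ _)
    · have h3 := vR_sub v 1099511627776
      rw [vR_one] at h3
      exact max_le (by linarith) (vR_nonneg _)
    · rcases le_total v 1099511627776 with h | h
      · have e : vR (1099511627776 - v) = 1 - vR v := by
          have := vR_add (1099511627776 - v) v
          rw [Nat.sub_add_cancel h, vR_one] at this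
          linarith
        rw [e]; exact (by linarith : 1 - vR v ≤ -z).trans (le_max_left _ _)
      · rw [Nat.sub_eq_zero_of_le h]
        have : vR 0 = 0 := by unfold vR; norm_num
        rw [this]; exact le_max_right _ _
    · have h3 := vR_sub 1099511627776 u
      rw [vR_one] at h3
      exact max_le (by linarith) (vR_nonneg _)
  obtain ⟨p, q, rfl, hp, hq, h1, h2, h3, h4⟩ := hP ha hb
  obtain ⟨r, t, rfl, hr, ht, h5, h6, h7, h8⟩ := hP hc hd
  have e : (p - q) * (r - t) = p * r + q * t - (p * t + q * r) := by ring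
  rw [e]
  have i1 := mul_le_mul h1 h5 (vR_nonneg _) hp
  have i2 := mul_le_mul h3 h7 (vR_nonneg _) hq
  have i3 := mul_le_mul h2 h8 ht (vR_nonneg _)
  have i4 := mul_le_mul h4 h6 hr (vR_nonneg _)
  linarith

theorem sqpart {a b : ℕ} {x : ℝ} (ha : vR a - 1 ≤ x) (hb : x ≤ vR b - 1) :
    vR (max (a - 1099511627776) (1099511627776 - b)) ≤ |x| := by
  rw [vR_max]
  apply max_le
  · rcases le_total a 1099511627776 with h | h
    · rw [Nat.sub_eq_zero_of_le h]
      have : vR 0 = 0 := by unfold vR; norm_num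
      rw [this]; exact abs_nonneg _
    · have e : vR (a - 1099511627776) = vR a - 1 := by
        have := vR_add (a - 1099511627776) 1099511627776
        rw [Nat.sub_add_cancel h, vR_one] at this
        linarith
      rw [e]; exact ha.trans (le_abs_self _)
  · rcases le_total b 1099511627776 with h | h
    · have e : vR (1099511627776 - b) = 1 - vR b := by
        have := vR_add (1099511627776 - b) b
        rw [Nat.sub_add_cancel h, vR_one] at this
        linarith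
      rw [e]; exact (by linarith : 1 - vR b ≤ -x).trans (neg_le_abs _)
    · rw [Nat.sub_eq_zero_of_le h]
      have : vR 0 = 0 := by unfold vR; norm_num
      rw [this]; exact abs_nonneg _

/-- the rounding in `wLo` -/
theorem wround (s X Y : ℕ) {w : ℝ} (hw : -1 ≤ w)
    (h : vR s ^ 2 / 2 + ((X : ℝ) - Y) / 2 ^ 80 ≤ w) :
    vR (min 17592186044415 ((1099511627776 + (s * s / 2 + X) / 2 ^ 40) - (Y / 2 ^ 40 + 1))) - 1 ≤ w := by
  have h0 : vR (min 17592186044415 ((1099511627776 + (s * s / 2 + X) / 2 ^ 40) - (Y / 2 ^ 40 + 1)))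
      ≤ vR ((1099511627776 + (s * s / 2 + X) / 2 ^ 40) - (Y / 2 ^ 40 + 1)) := vR_mono (min_le_right _ _)
  rcases le_total (1099511627776 + (s * s / 2 + X) / 2 ^ 40) (Y / 2 ^ 40 + 1) with h1 | h1
  · have hz : ∀ a b : ℕ, a ≤ b → vR (a - b) = 0 := fun a b hab => by
      rw [Nat.sub_eq_zero_of_le hab]; unfold vR; norm_num
    have hz1 := hz _ _ h1
    linarith
  · have e : vR ((1099511627776 + (s * s / 2 + X) / 2 ^ 40) - (Y / 2 ^ 40 + 1))
        = 1 + vR ((s * s / 2 + X) / 2 ^ 40) - (vR (Y / 2 ^ 40 + 1)) := by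
      have := vR_add ((1099511627776 + (s * s / 2 + X) / 2 ^ 40) - (Y / 2 ^ 40 + 1)) (Y / 2 ^ 40 + 1)
      rw [Nat.sub_add_cancel h1, vR_add, vR_one] at this
      linarith
    have h2 : vR ((s * s / 2 + X) / 2 ^ 40) ≤ vR s ^ 2 / 2 + (X : ℝ) / 2 ^ 80 := by
      unfold vR
      have a1 : (((s * s / 2 + X) / 2 ^ 40 : ℕ) : ℝ) ≤ ((s * s / 2 + X : ℕ) : ℝ) / ((2 ^ 40 : ℕ) : ℝ) :=
        Nat.cast_div_le
      have a2 : ((s * s / 2 : ℕ) : ℝ) ≤ ((s * s : ℕ) : ℝ) / ((2 : ℕ) : ℝ) := Nat.cast_div_le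
      simp only [Nat.cast_add, Nat.cast_mul, Nat.cast_pow, Nat.cast_ofNat] at a1 a2
      have a3 : (((s * s / 2 + X) / 2 ^ 40 : ℕ) : ℝ) ≤ ((s : ℝ) * s / 2 + X) / 2 ^ 40 := by
        refine a1.trans ?_
        gcongr
      have a4 := div_le_div_of_nonneg_right a3 (by positivity : (0 : ℝ) ≤ 2 ^ 40)
      refine a4.trans (le_of_eq ?_)
      ring
    have h3 : (Y : ℝ) / 2 ^ 80 ≤ vR (Y / 2 ^ 40 + 1) := by
      have a1 := shr_le Y 40
      refine le_trans (le_of_eq ?_) a1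
      unfold vR
      ring
    rw [e] at h0
    have e2 : ((X : ℝ) - Y) / 2 ^ 80 = (X : ℝ) / 2 ^ 80 - (Y : ℝ) / 2 ^ 80 := by ring
    rw [e2] at h
    linarith

end CHFaux

open CHFaux in
theorem gCHF : GCHF := by
  intro hFLD hGRID A B θ bf tb
  have h0 : 0 < θ := by have := bf.th0; linarith
  have h1 : θ < 1 / 2 := bf.th1
  have hstep : ∀ k < 1152, xR (k + 1) = xR k + hh k := by
    intro k hk
    have := (hGRID.2.2.1 k hk).1
    unfold xR aR hh
    rw [this]
    push_cast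
    ring
  have hshf : ∀ k < 1152, N.shf k ≤ 24 := fun k hk => (hGRID.2.2.1 k hk).2.2
  have hx0 : ∀ k, 0 ≤ xR k := fun k => by unfold xR aR; positivity
  have hconv : ∀ k < 1152, ∀ l : ℝ, (1 - l) * xR k + l * xR (k + 1) = xR k + l * hh k := by
    intro k hk l
    rw [hstep k hk]; ring
  have hst : ∀ k < 1152, ∀ y, xR k ≤ y → y ≤ xR k + hh k → |f2 θ y| ≤ vR (N.fld (N.tST B) k) := by
    intro k hk y hy1 hy2
    exact tb.st k hk y hy1 (by rw [hstep k hk]; exact hy2)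
  have hCH := fun k (_ : k < 1152) (l : ℝ) (hl0 : 0 ≤ l) (hl1 : l ≤ 1) (F : ℝ) =>
    bCH θ h0 h1 (xR k) (hh k) l (vR (N.fld (N.tST B) k)) F (hx0 k) (hh_pos k) hl0 hl1
  have hin : ∀ k < 1152, ∀ y, xR k ≤ y → y ≤ xR (k + 1) → ∃ l, 0 ≤ l ∧ l ≤ 1 ∧
      y = (1 - l) * xR k + l * xR (k + 1) := by
    intro k hk y hy1 hy2
    refine ⟨(y - xR k) / hh k, div_nonneg (by linarith) (hh_pos k).le, ?_, ?_⟩
    · rw [div_le_one (hh_pos k)]
      rw [hstep k hk] at hy2; linarith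
    · rw [hconv k hk, div_mul_cancel₀ _ (hh_pos k).ne']; ring
  have c0 : ∀ k < 1152, ∀ l : ℝ, 0 ≤ l → l ≤ 1 →
      |f0 θ ((1 - l) * xR k + l * xR (k + 1)) - ((1 - l) * f0 θ (xR k) + l * f0 θ (xR (k + 1)))| ≤
        vR (N.cpF (N.fld (N.tST B) k) (N.shf k)) := by
    intro k hk l hl0 hl1
    have h := ((hCH k hk l hl0 hl1 0).2.1 (hst k hk)).1
    rw [hconv k hk, hstep k hk]
    exact h.trans (cp_le k _ (hshf k hk))
  have c1 : ∀ k < 1152, ∀ l : ℝ, 0 ≤ l → l ≤ 1 →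
      |f1 θ ((1 - l) * xR k + l * xR (k + 1)) - ((1 - l) * f1 θ (xR k) + l * f1 θ (xR (k + 1)))| ≤
        vR (N.csF B.m3R (N.fld (N.tST B) k) (N.shf k)) := by
    intro k hk l hl0 hl1
    have h := ((hCH k hk l hl0 hl1 0).2.1 (hst k hk)).2
    rw [hconv k hk, hstep k hk]
    refine le_trans (le_min (h.1.trans ?_) h.2.1) (cs_le k B.m3R _ (hshf k hk))
    have := bf.m3.1
    have h3 : 0 ≤ hh k ^ 2 / 8 := by positivity
    nlinarith [mul_le_mul_of_nonneg_left this h3]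
  have b0 : ∀ k < 1152, ∀ y, xR k ≤ y → y ≤ xR (k + 1) → |f0 θ y| ≤ vR (N.u0F B k) := by
    intro k hk y hy1 hy2
    rw [u0F_eq, vR_min, vR_one]
    apply le_min (aBD h0 h1 ((hx0 k).trans hy1)).1
    obtain ⟨l, hl0, hl1, rfl⟩ := hin k hk y hy1 hy2
    have h3 := c0 k hk l hl0 hl1
    have h4 := am_le (tb.pl k hk.le) (tb.pu k hk.le)
    have h5 := am_le (tb.pl (k + 1) hk) (tb.pu (k + 1) hk)
    rw [vR_add, vR_max]
    have h6 := conv_abs hl0 hl1 (h4.trans (le_max_left _ (vR (N.am (N.fld (N.tPL B) (k + 1)) (N.fld (N.tPU B) (k + 1))))))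
      (h5.trans (le_max_right (vR (N.am (N.fld (N.tPL B) k) (N.fld (N.tPU B) k))) _))
    have h7 := abs_sub_abs_le_abs_sub (f0 θ ((1 - l) * xR k + l * xR (k + 1)))
      ((1 - l) * f0 θ (xR k) + l * f0 θ (xR (k + 1)))
    linarith
  have b1 : ∀ k < 1152, ∀ y, xR k ≤ y → y ≤ xR (k + 1) → |f1 θ y| ≤ vR (N.u1F B k) := by
    intro k hk y hy1 hy2
    rw [u1F_eq, vR_min, vR_one]
    apply le_min (aBD h0 h1 ((hx0 k).trans hy1)).2.2.2.1
    obtain ⟨l, hl0, hl1, rfl⟩ := hin k hk y hy1 hy2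
    have h3 := c1 k hk l hl0 hl1
    have h4 := am_le (tb.sl k hk.le) (tb.su k hk.le)
    have h5 := am_le (tb.sl (k + 1) hk) (tb.su (k + 1) hk)
    rw [vR_add, vR_max]
    have h6 := conv_abs hl0 hl1 (h4.trans (le_max_left _ (vR (N.am (N.fld (N.tSL B) (k + 1)) (N.fld (N.tSU B) (k + 1))))))
      (h5.trans (le_max_right (vR (N.am (N.fld (N.tSL B) k) (N.fld (N.tSU B) k))) _))
    have h7 := abs_sub_abs_le_abs_sub (f1 θ ((1 - l) * xR k + l * xR (k + 1)))
      ((1 - l) * f1 θ (xR k) + l * f1 θ (xR (k + 1)))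
    linarith
  have p1 : ∀ k < 1152, ∀ y, xR k ≤ y → y ≤ xR (k + 1) → f1 θ y ≤ vR (N.p1F B k) := by
    intro k hk y hy1 hy2
    rw [p1F_eq, vR_min, vR_one]
    apply le_min ((le_abs_self _).trans (aBD h0 h1 ((hx0 k).trans hy1)).2.2.2.1)
    obtain ⟨l, hl0, hl1, rfl⟩ := hin k hk y hy1 hy2
    have h3 := c1 k hk l hl0 hl1
    have h4 := tb.su k hk.le
    have h5 := tb.su (k + 1) hk
    have h6 : (1 - l) * f1 θ (xR k) + l * f1 θ (xR (k + 1)) ≤
        max (vR (N.fld (N.tSU B) k)) (vR (N.fld (N.tSU B) (k + 1))) - 1 := by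
      apply conv_le hl0 hl1
      · have := le_max_left (vR (N.fld (N.tSU B) k)) (vR (N.fld (N.tSU B) (k + 1)))
        linarith
      · have := le_max_right (vR (N.fld (N.tSU B) k)) (vR (N.fld (N.tSU B) (k + 1)))
        linarith
    have h7 := vR_sub (max (N.fld (N.tSU B) k) (N.fld (N.tSU B) (k + 1)) +
      N.csF B.m3R (N.fld (N.tST B) k) (N.shf k)) 1099511627776
    rw [vR_add, vR_max, vR_one] at h7
    have h8 := le_abs_self (f1 θ ((1 - l) * xR k + l * xR (k + 1)) -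
      ((1 - l) * f1 θ (xR k) + l * f1 θ (xR (k + 1))))
    linarith
  have hslope : ∀ k < 1152, hh k ^ 2 / 8 * (vR (N.fld (N.tST B) k) ^ 2 / 2 +
      vR (N.u0F B k) * (mo θ 4 / 840)) ≤ vR (N.wSl B k) := by
    intro k hk
    rw [wSl_eq, hh_sq8 k (hshf k hk)]
    refine le_trans ?_ (shr_le _ _)
    apply mul_le_mul_of_nonneg_left _ (by positivity)
    rw [cwF_eq hFLD]
    have a1 := div_lt (N.fld (N.tST B) k * N.fld (N.tST B) k) (2 ^ 41)
    have a2 := div_lt (N.u0F B k * B.m4R) (2 ^ 40 * 840)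
    rw [← Nat.div_div_eq_div_mul] at a2
    have a3 : vR (N.u0F B k) * (mo θ 4 / 840) ≤ vR (N.u0F B k) * (vR B.m4R / 840) := by
      apply mul_le_mul_of_nonneg_left _ (vR_nonneg _)
      have := bf.m4.1
      linarith
    refine (add_le_add_right a3 _).trans ?_
    unfold vR
    push_cast at a1 a2 ⊢
    have e1 : ((N.fld (N.tST B) k : ℝ) / 2 ^ 40) ^ 2 / 2 =
        ((N.fld (N.tST B) k : ℝ) * (N.fld (N.tST B) k : ℝ) / 2 ^ 41) / 2 ^ 40 := by ring
    have e2 : (N.u0F B k : ℝ) / 2 ^ 40 * ((B.m4R : ℝ) / 2 ^ 40 / 840) =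
        ((N.u0F B k : ℝ) * (B.m4R : ℝ) / (2 ^ 40 * 840)) / 2 ^ 40 := by ring
    rw [e1, e2, ← add_div]
    apply div_le_div_of_nonneg_right _ (by positivity)
    linarith
  refine ⟨c0, c1, b0, b1, p1, ?_, ?_, ?_⟩
  · intro k hk
    have hk2 : k ≤ 1152 := by omega
    have hk3 : k < 1152 := by omega
    have e1 : N.fld (N.tW B) k = N.wLo B k := by
      unfold N.tW
      apply hFLD.1 _ _ _ k (by omega)
      intro j _
      rw [wLo_eq hFLD]
      exact lt_of_le_of_lt (min_le_left _ _) (by norm_num)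
    rw [e1, wLo_eq hFLD]
    have hf2 : |f2 θ (xR k)| ≤ 1 := by
      have h3 := tb.st k hk3 (xR k) le_rfl (by rw [hstep k hk3]; linarith [hh_pos k])
      have h4 := vR_mono (tb.s1 k hk3)
      have e : vR (2 ^ 40) = 1 := by unfold vR; norm_num
      rw [e] at h4
      linarith
    have hf0 := (aBD h0 h1 (hx0 k)).1
    have hprod := parts (tb.pl k hk2) (tb.pu k hk2) (tb.tl k hk2) (tb.tu k hk2)
    apply wround
    · unfold Wf
      have : |f0 θ (xR k) * f2 θ (xR k)| ≤ 1 := by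
        rw [abs_mul]
        nlinarith [abs_nonneg (f0 θ (xR k)), abs_nonneg (f2 θ (xR k))]
      have h5 := (abs_le.mp this).1
      nlinarith [sq_nonneg (f1 θ (xR k))]
    · unfold Wf
      have hs := sqpart (tb.sl k hk2) (tb.su k hk2)
      have hs2 : vR (max (N.fld (N.tSL B) k - 1099511627776) (1099511627776 - N.fld (N.tSU B) k)) ^ 2
          ≤ f1 θ (xR k) ^ 2 := by
        rw [← sq_abs (f1 θ (xR k))]
        exact pow_le_pow_left₀ (vR_nonneg _) hs 2
      have e2 : ∀ a b c d a' b' c' d' : ℕ,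
          (((a * b + c * d : ℕ) : ℝ) - ((a' * b' + c' * d' : ℕ) : ℝ)) / 2 ^ 80 =
          vR a * vR b + vR c * vR d - (vR a' * vR b' + vR c' * vR d') := by
        intro a b c d a' b' c' d'
        unfold vR
        push_cast
        ring
      rw [e2]
      linarith
  · intro k hk l hl0 hl1
    have h := (((hCH k hk l hl0 hl1 (vR (N.u0F B k))).2.1 (hst k hk)).2.2.2
      (fun y hy1 hy2 => b0 k hk y hy1 (by rw [hstep k hk]; exact hy2)))
    rw [hconv k hk, hstep k hk]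
    have h2 := hslope k hk
    linarith
  · intro k hk
    refine ⟨vR (N.fld (N.tST B) k), vR (N.u0F B k), tb.st k hk, b0 k hk, ?_⟩
    have e : xR (k + 1) - xR k = hh k := by rw [hstep k hk]; ring
    rw [e]
    exact hslope k hk

end Pool.Agent.Helper8.PT
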