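import Pool.Agent.Helper53.PT.GoalsA

/-! # MP_705522_gt, packet MO: ratios of Gamma values are monotone -/

namespace Pool.Agent.Helper8.PT

open Filter Topology Finset Pool.Agent.Helper53.PT

theorem gs_ratio {s1 s2 s3 s4 : ℝ} (h1 : 0 < s1) (h2 : 0 < s2) (h3 : 0 < s3) (h4 : 0 < s4)
    (h : s1 + s2 = s3 + s4) {n : ℕ} (hn : 0 < n) :
    Real.GammaSeq s1 n * Real.GammaSeq s2 n / (Real.GammaSeq s3 n * Real.GammaSeq s4 n) =
      ∏ k ∈ range (n + 1), (s3 + k) * (s4 + k) / ((s1 + k) * (s2 + k)) := by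
  have hn' : (0 : ℝ) < n := by exact_mod_cast hn
  have hp : (n : ℝ) ^ s1 * (n : ℝ) ^ s2 = (n : ℝ) ^ s3 * (n : ℝ) ^ s4 := by
    rw [← Real.rpow_add hn', ← Real.rpow_add hn', h]
  have hP : ∀ s : ℝ, 0 < s → 0 < ∏ k ∈ range (n + 1), (s + k) := fun s hs =>
    prod_pos fun k _ => by positivity
  have p1 := hP s1 h1
  have p2 := hP s2 h2
  have p3 := hP s3 h3
  have p4 := hP s4 h4
  have a1 : 0 < (n : ℝ) ^ s1 := Real.rpow_pos_of_pos hn' _
  have a2 : 0 < (n : ℝ) ^ s2 := Real.rpow_pos_of_pos hn' _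
  have a3 : 0 < (n : ℝ) ^ s3 := Real.rpow_pos_of_pos hn' _
  have a4 : 0 < (n : ℝ) ^ s4 := Real.rpow_pos_of_pos hn' _
  have hF : (0 : ℝ) < (n.factorial : ℝ) := by exact_mod_cast n.factorial_pos
  rw [prod_div_distrib, prod_mul_distrib, prod_mul_distrib]
  unfold Real.GammaSeq
  generalize (∏ k ∈ range (n + 1), (s1 + (k : ℝ))) = P1 at *
  generalize (∏ k ∈ range (n + 1), (s2 + (k : ℝ))) = P2 at *
  generalize (∏ k ∈ range (n + 1), (s3 + (k : ℝ))) = P3 at *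
  generalize (∏ k ∈ range (n + 1), (s4 + (k : ℝ))) = P4 at *
  generalize (n : ℝ) ^ s1 = A1 at *
  generalize (n : ℝ) ^ s2 = A2 at *
  generalize (n : ℝ) ^ s3 = A3 at *
  generalize (n : ℝ) ^ s4 = A4 at *
  generalize (n.factorial : ℝ) = F at *
  rw [div_eq_div_iff (by positivity) (by positivity)]
  field_simp
  linear_combination hp

theorem factor_le (j k : ℕ) {θ θ' : ℝ} (h0 : 0 < θ) (h : θ ≤ θ') (h' : θ' ≤ 1 / 2) :
    (1 + (2 * (j : ℝ) - 1) * θ + k) * (1 + θ + k) / ((1 + (2 * (j : ℝ) + 1) * θ + k) * (1 - θ + k)) ≤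
      (1 + (2 * (j : ℝ) - 1) * θ' + k) * (1 + θ' + k) /
        ((1 + (2 * (j : ℝ) + 1) * θ' + k) * (1 - θ' + k)) := by
  have hj : (0 : ℝ) ≤ j := Nat.cast_nonneg j
  have hk : (0 : ℝ) ≤ k := Nat.cast_nonneg k
  have h0' : 0 < θ' := h0.trans_le h
  have hD : 0 < (1 + (2 * (j : ℝ) + 1) * θ + k) * (1 - θ + k) := by
    apply mul_pos
    · positivity
    · linarith
  have hD' : 0 < (1 + (2 * (j : ℝ) + 1) * θ' + k) * (1 - θ' + k) := by
    apply mul_pos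
    · positivity
    · linarith
  rw [div_le_div_iff₀ hD hD']
  have key : 0 ≤ 4 * (j : ℝ) * (1 + k) * (θ' - θ) * ((1 + k) * (θ' + θ) + 2 * j * (θ * θ')) := by
    have : 0 ≤ θ' - θ := by linarith
    positivity
  nlinarith [key]

theorem ratio_eq (j : ℕ) {θ : ℝ} (h0 : 0 < θ) (h1 : θ < 1) :
    mo θ (j + 1) / mo θ j = Real.Gamma (1 + (2 * (j : ℝ) + 1) * θ) * Real.Gamma (1 - θ) /
      (Real.Gamma (1 + (2 * (j : ℝ) - 1) * θ) * Real.Gamma (1 + θ)) := by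
  have hj : (0 : ℝ) ≤ j := Nat.cast_nonneg j
  have e1 : 0 < Real.Gamma (1 - θ) := Real.Gamma_pos_of_pos (by linarith)
  have e2 : 0 < Real.Gamma (1 + θ) := Real.Gamma_pos_of_pos (by linarith)
  have e3 : 0 < Real.Gamma (1 + (2 * (j : ℝ) - 1) * θ) := Real.Gamma_pos_of_pos (by nlinarith)
  have e4 : 0 < Real.Gamma (1 + (2 * (j : ℝ) + 1) * θ) := Real.Gamma_pos_of_pos (by positivity)
  unfold mo
  have e5 : (1 : ℝ) + (2 * ((j + 1 : ℕ) : ℝ) - 1) * θ = 1 + (2 * (j : ℝ) + 1) * θ := by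
    push_cast
    ring
  rw [e5, pow_succ]
  field_simp

theorem tends (j : ℕ) {θ : ℝ} (h0 : 0 < θ) (h1 : θ < 1) :
    Tendsto (fun n : ℕ => ∏ k ∈ range (n + 1),
      (1 + (2 * (j : ℝ) - 1) * θ + k) * (1 + θ + k) / ((1 + (2 * (j : ℝ) + 1) * θ + k) * (1 - θ + k)))
      atTop (𝓝 (mo θ (j + 1) / mo θ j)) := by
  have hj : (0 : ℝ) ≤ j := Nat.cast_nonneg j
  have p3 : (0 : ℝ) < 1 + (2 * (j : ℝ) - 1) * θ := by nlinarith
  have e2 : 0 < Real.Gamma (1 + θ) := Real.Gamma_pos_of_pos (by linarith)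
  have e3 : 0 < Real.Gamma (1 + (2 * (j : ℝ) - 1) * θ) := Real.Gamma_pos_of_pos p3
  rw [ratio_eq j h0 h1]
  have h := ((Real.GammaSeq_tendsto_Gamma (1 + (2 * (j : ℝ) + 1) * θ)).mul
    (Real.GammaSeq_tendsto_Gamma (1 - θ))).div
    ((Real.GammaSeq_tendsto_Gamma (1 + (2 * (j : ℝ) - 1) * θ)).mul
    (Real.GammaSeq_tendsto_Gamma (1 + θ))) (mul_pos e3 e2).ne'
  refine h.congr' ?_
  filter_upwards [eventually_gt_atTop 0] with n hn
  exact gs_ratio (by positivity) (by linarith) p3 (by linarith) (by ring) hn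

theorem gMO : GMO := by
  refine ⟨fun θ h0 h1 => ⟨?_, ?_, fun j => ?_⟩, fun θ θ' h0 h h' j => ?_, fun j => ?_⟩
  · have e1 : 0 < Real.Gamma (1 - θ) := Real.Gamma_pos_of_pos (by linarith)
    unfold mo
    rw [show (1 : ℝ) + (2 * ((0 : ℕ) : ℝ) - 1) * θ = 1 - θ by push_cast; ring, pow_zero, mul_one,
      div_self e1.ne']
  · have e1 : 0 < Real.Gamma (1 - θ) := Real.Gamma_pos_of_pos (by linarith)
    have e2 : 0 < Real.Gamma (1 + θ) := Real.Gamma_pos_of_pos (by linarith)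
    unfold mo
    rw [show (1 : ℝ) + (2 * ((1 : ℕ) : ℝ) - 1) * θ = 1 + θ by push_cast; ring, pow_one]
    field_simp
  · have hj : (0 : ℝ) ≤ j := Nat.cast_nonneg j
    have e1 : 0 < Real.Gamma (1 - θ) := Real.Gamma_pos_of_pos (by linarith)
    have e2 : 0 < Real.Gamma (1 + θ) := Real.Gamma_pos_of_pos (by linarith)
    have e3 : 0 < Real.Gamma (1 + (2 * (j : ℝ) - 1) * θ) := Real.Gamma_pos_of_pos (by nlinarith)
    unfold mo
    positivity
  · refine le_of_tendsto_of_tendsto' (tends j h0 (by linarith)) (tends j (h0.trans_le h) (by linarith))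
      fun n => ?_
    refine prod_le_prod (fun k _ => ?_) fun k _ => factor_le j k h0 h h'
    have hj : (0 : ℝ) ≤ j := Nat.cast_nonneg j
    have hk : (0 : ℝ) ≤ k := Nat.cast_nonneg k
    have q1 : (0 : ℝ) ≤ 1 + (2 * (j : ℝ) - 1) * θ + k := by nlinarith
    have q2 : (0 : ℝ) ≤ 1 - θ + k := by linarith
    positivity
  · have e5 : (1 : ℝ) + (2 * ((j + 1 : ℕ) : ℝ) - 1) * (1 / 2) = (1 + (2 * (j : ℝ) - 1) * (1 / 2)) + 1 := by
      push_cast
      ring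
    have hj : (0 : ℝ) ≤ j := Nat.cast_nonneg j
    have p : (1 : ℝ) + (2 * (j : ℝ) - 1) * (1 / 2) ≠ 0 := by
      have : (0 : ℝ) < 1 + (2 * (j : ℝ) - 1) * (1 / 2) := by linarith
      exact this.ne'
    have e6 : Real.Gamma (1 + 1 / 2) = 1 / 2 * Real.Gamma (1 - 1 / 2) := by
      rw [add_comm, Real.Gamma_add_one (by norm_num)]
      norm_num
    have e1 : 0 < Real.Gamma (1 - 1 / 2) := Real.Gamma_pos_of_pos (by norm_num)
    have e7 : Real.Gamma (1 - 1 / 2) / Real.Gamma (1 + 1 / 2) = 2 := by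
      rw [e6]
      field_simp
    unfold mo
    rw [e5, Real.Gamma_add_one p, e7, pow_succ]
    ring

end Pool.Agent.Helper8.PT
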